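import Pool.Agent.Helper5.FS.All3

set_option autoImplicit false

open Finset Pool.Agent.Helper5.FS

namespace Pool.Agent.Results.MP_e96806_co.FinalSegment

/-- For every `c > 2 log 2` there is `K ≥ 0` (`K = 0` if `c ≥ 5`) such that for EVERY hypergraph `E`
on `n ≥ 1` vertices: `b m ≤ b (m - 1)` as soon as `m ≥ c n / X`, `X ≥ K`, where
`X = log (n / (1 + √(2 E_T) + 2 n / T))`, `T ≥ 1` arbitrary, `E_T` = number of edges of size at most
`T`; or `X = log (n / q)` if every partition without edges into `m` blocks can be coarsened to one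
with at most `q` blocks. -/
theorem result :
    ∀ c : ℝ, 2 * Real.log 2 < c → ∃ K : ℝ, 0 ≤ K ∧ (5 ≤ c → K = 0) ∧
      ∀ (n : ℕ) (E : Finset (Finset (Fin n))) (b : ℕ → ℕ), 1 ≤ n →
      (∀ m : ℕ, b m = Set.ncard {P : Finset (Finset (Fin n)) |
        P.card = m ∧
        (∀ B ∈ P, B.Nonempty) ∧
        (∀ B ∈ P, ∀ C ∈ P, B ≠ C → Disjoint B C) ∧
        (∀ v : Fin n, ∃ B ∈ P, v ∈ B) ∧
        (∀ B ∈ P, ∀ e ∈ E, ¬ e ⊆ B)}) →
      (∀ T m : ℕ, 1 ≤ T →
        K ≤ Real.log ((n : ℝ) /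
          (1 + Real.sqrt (2 * (E.filter (fun e => e.card ≤ T)).card) + 2 * n / T)) →
        c * (n : ℝ) ≤ m * Real.log ((n : ℝ) /
          (1 + Real.sqrt (2 * (E.filter (fun e => e.card ≤ T)).card) + 2 * n / T)) →
        b m ≤ b (m - 1)) ∧
      ∀ q m : ℕ, 1 ≤ q → K ≤ Real.log ((n : ℝ) / q) →
        c * (n : ℝ) ≤ m * Real.log ((n : ℝ) / q) →
        (∀ P : Finset (Finset (Fin n)), Pt P → Ind E P → P.card = m →
          ∃ Q, Pt Q ∧ Ind E Q ∧ Rf P Q ∧ Q.card ≤ q) → b m ≤ b (m - 1) :=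
  all_FI3

end Pool.Agent.Results.MP_e96806_co.FinalSegment
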