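import Pool.Agent.Helper18.UB.LNK
import Pool.Agent.Helper30.UB.MRG
import Pool.Agent.Helper67.UB.AMG
import Pool.Agent.Helper89.UB.INIT

set_option autoImplicit false

namespace Pool.Agent.Results.MP_e96806_co.InitialSegment

/-- For EVERY hypergraph `E` on `n` vertices the numbers `b m` of partitions of the vertices into
`m` nonempty blocks without edges satisfy `b m ≤ b (m + 1)` whenever `1 ≤ m` and
`(m + 3) ^ m ≤ 2 ^ n`, that is, on an initial segment of length `(log 2 - o(1)) n / log n`. -/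
theorem result :
    ∀ (n : ℕ) (E : Finset (Finset (Fin n))) (b : ℕ → ℕ),
      (∀ m : ℕ, b m = Set.ncard {P : Finset (Finset (Fin n)) |
          P.card = m ∧
          (∀ B ∈ P, B.Nonempty) ∧
          (∀ B ∈ P, ∀ C ∈ P, B ≠ C → Disjoint B C) ∧
          (∀ v : Fin n, ∃ B ∈ P, v ∈ B) ∧
          (∀ B ∈ P, ∀ e ∈ E, ¬ e ⊆ B)}) →
      ∀ m : ℕ, 1 ≤ m → (m + 3) ^ m ≤ 2 ^ n → b m ≤ b (m + 1) := by
  intro n E b hb m hm hmn
  have h4 : b = Pool.Agent.Helper89.UB.bc E := funext fun m => hb m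
  have h := Pool.Agent.Helper89.UB.st_INIT Pool.Agent.Helper89.UB.st_MRG
    Pool.Agent.Helper89.UB.st_AMG n m E hm hmn
  rw [← Pool.Agent.Helper89.UB.st_LNK, ← Pool.Agent.Helper89.UB.st_LNK, Nat.factorial_succ] at h
  rw [h4]
  have h6 : Pool.Agent.Helper89.UB.bc E m * ((m + 1) * m.factorial) ≤
      Pool.Agent.Helper89.UB.bc E (m + 1) * ((m + 1) * m.factorial) := by
    calc Pool.Agent.Helper89.UB.bc E m * ((m + 1) * m.factorial) =
        (m + 1) * (Pool.Agent.Helper89.UB.bc E m * m.factorial) := by ring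
      _ ≤ _ := h
  exact Nat.le_of_mul_le_mul_right h6 (by positivity)

end Pool.Agent.Results.MP_e96806_co.InitialSegment
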