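import Pool.Agent.Helper5.LCU.All3

set_option autoImplicit false

open Finset Pool.Agent.Helper5.LCU

namespace Pool.Agent.Results.MP_e96806_co.JoinsAndCliqueSums

/-- Let `E` be a hypergraph (edges are nonempty) on `n` vertices that can be built from complete
`r`-uniform hypergraphs (`r ≥ 3`), hypergraphs in which any three vertices contain an edge,
hypergraphs whose generating polynomial has only real zeros and good hypergraphs by joins and by
gluing along cliques (`BuiltP`). With `w` the clique number, `b m = 0` for `m < w` and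
`j! b (w + j)` is log-concave without internal zeros; in particular the sequence `b` is
unimodal. -/
theorem result :
    ∀ (n : ℕ) (E : Finset (Finset (Fin n))) (b : ℕ → ℕ),
      (∀ e ∈ E, e.Nonempty) →
      (∀ m : ℕ, b m = Set.ncard {P : Finset (Finset (Fin n)) |
        P.card = m ∧
        (∀ B ∈ P, B.Nonempty) ∧
        (∀ B ∈ P, ∀ C ∈ P, B ≠ C → Disjoint B C) ∧
        (∀ v : Fin n, ∃ B ∈ P, v ∈ B) ∧
        (∀ B ∈ P, ∀ e ∈ E, ¬ e ⊆ B)}) →
      BuiltP E univ →
      (∃ w : ℕ, (∃ K : Finset (Fin n), Clique E K ∧ K.card = w) ∧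
        (∀ K : Finset (Fin n), Clique E K → K.card ≤ w) ∧ (∀ m, m < w → b m = 0) ∧
        ∀ i j : ℕ, i ≤ j → (i.factorial * b (w + i)) * ((j + 2).factorial * b (w + (j + 2))) ≤
          ((i + 1).factorial * b (w + (i + 1))) * ((j + 1).factorial * b (w + (j + 1)))) ∧
      ∃ k : ℕ,
        (∀ i j : ℕ, 1 ≤ i → i ≤ j → j ≤ k → b i ≤ b j) ∧
        (∀ i j : ℕ, k ≤ i → i ≤ j → j ≤ n → b j ≤ b i) :=
  all_MAIN3

end Pool.Agent.Results.MP_e96806_co.JoinsAndCliqueSums
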